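import Pool.Agent.R614.NF.Emb

/-!
# NIP fields have few local places, few embeddings in the real and p-adic numbers, and few orderings

Let `K` be a field which is NIP, or `NIP_n` for some `n`, or NTP2. There is a number `N`, depending
only on the theory of `K`, such that every field `K'` elementarily equivalent to `K` has, up to
equivalence, fewer than `N` places with values in local fields other than the complex numbers (all
local fields together: the real numbers, the finite extensions of all the `ℚ_p`, the fields of
Laurent series over all finite fields). In particular `K'` has fewer than `N` embeddings in the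
fields `ℝ, ℚ_2, ℚ_3, ℚ_5, …`; if there is one, the automorphism group of `K'` is finite, of order
less than `N`; and among any `N` orderings of `K'` two induce the same real place.

`NIPField`, `NIPnField`, `NTP2Field` are defined in `Pool.Agent.W882.Nip3.Defs`, `RealPlace` and
`ValuedPlace` in the starting result `UnramifiedNorms`.
-/

set_option autoImplicit false

namespace Pool.Agent.Results.MP_3554b5_lc.LocalPlaces

open Pool.Agent.W882.Nip3 Pool.Agent.R614.NF

/-- Let `K` be a field which is NIP (the hypothesis of `S14569`), or `NIP_n` for some `n`, or
`NTP2`. There is `N` such that for every field `K'` elementarily equivalent to `K`: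

(1) among any `N` local places of `K'` (real places, and places with values in nonarchimedean local
fields) two have the same set of elements of absolute value at most one;

(2) `K'` does not have `N` different embeddings in the fields `ℝ` and `ℚ_p`, `p` any prime;

(3) if `K'` has an embedding in one of these fields, then its automorphism group is finite and has
fewer than `N` elements;

(4) among any `N` orderings of `K'` there are two, the `i`-th and the `j`-th one, such that
`-1 <_i x <_i 1` implies `-2 <_j x <_j 2` and `-1 <_j x <_j 1` implies `-2 <_i x <_i 2`. -/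
theorem result (K : Type) [Field K] [FirstOrder.Ring.CompatibleRing K]
    (hK : NIPField K ∨ (∃ n, NIPnField n K) ∨ NTP2Field K) :
    ∃ N : ℕ, ∀ (K' : Type) [Field K'] [FirstOrder.Ring.CompatibleRing K'],
      FirstOrder.Language.ring.ElementarilyEquivalent K K' →
      (∀ P : Fin N → LocalPlace K', ∃ i j, i ≠ j ∧ (P i).ball = (P j).ball) ∧
      (∀ e : Fin N → Embedding K', ¬ Function.Injective e) ∧
      (∀ _ : Embedding K', Finite (K' ≃+* K') ∧ Nat.card (K' ≃+* K') < N) ∧
      (∀ o : Fin N → FieldOrder K', ∃ i j, i ≠ j ∧
        (∀ x : K', (o i).lt (-1) x → (o i).lt x 1 → (o j).lt (-2) x ∧ (o j).lt x 2) ∧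
        (∀ x : K', (o j).lt (-1) x → (o j).lt x 1 → (o i).lt (-2) x ∧ (o i).lt x 2)) := by
  obtain ⟨N, hN⟩ := few_local K hK
  refine ⟨N, fun K' _ _ hKK' => ?_⟩
  have h1 := hN K' hKK'
  have h2 : ∀ e : Fin N → Embedding K', ¬ Function.Injective e := by
    intro e he
    obtain ⟨i, j, hij, h⟩ := h1 fun i => (e i).toLocal
    exact hij (he (Embedding.eq_of_ball h))
  refine ⟨h1, h2, fun e => ?_, fun o => ?_⟩
  · -- automorphisms act freely on the embeddings
    have hact : ∃ F : (K' ≃+* K') → Embedding K', Function.Injective F := by
      cases e with
      | real f =>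
        refine ⟨fun s => .real (f.comp s.toRingHom), fun s t hst => ?_⟩
        have h3 : f.comp s.toRingHom = f.comp t.toRingHom := by
          injection hst
        ext x
        exact f.injective (RingHom.congr_fun h3 x)
      | padic p hp f =>
        refine ⟨fun s => .padic p hp (f.comp s.toRingHom), fun s t hst => ?_⟩
        have h3 : f.comp s.toRingHom = f.comp t.toRingHom := by
          injection hst
        ext x
        exact f.injective (RingHom.congr_fun h3 x)
    obtain ⟨F, hF⟩ := hact
    have h3 : ¬ Nonempty (Fin N ↪ (K' ≃+* K')) := by
      rintro ⟨g⟩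
      exact h2 (fun i => F (g i)) (hF.comp g.injective)
    have hfin : Finite (K' ≃+* K') := by
      by_contra hinf
      rw [not_finite_iff_infinite] at hinf
      exact h3 ⟨(Fin.valEmbedding).trans (Infinite.natEmbedding (K' ≃+* K'))⟩
    refine ⟨hfin, ?_⟩
    by_contra hcon
    rw [not_lt] at hcon
    apply h3
    have := Fintype.ofFinite (K' ≃+* K')
    rw [Nat.card_eq_fintype_card] at hcon
    apply Function.Embedding.nonempty_of_card_le
    rw [Fintype.card_fin]
    exact hcon
  · obtain ⟨i, j, hij, h⟩ := h1 fun i => .real (@ofOrder K' _ (o i).toLinearOrder (o i).ord)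
    refine ⟨i, j, hij, fun x hx1 hx2 => ?_, fun x hx1 hx2 => ?_⟩
    · have h3 := @mem_ball_ofOrder K' _ (o i).toLinearOrder (o i).ord x hx1 hx2
      rw [h] at h3
      exact @lt_of_mem_ball_ofOrder K' _ (o j).toLinearOrder (o j).ord x h3
    · have h3 := @mem_ball_ofOrder K' _ (o j).toLinearOrder (o j).ord x hx1 hx2
      rw [← h] at h3
      exact @lt_of_mem_ball_ofOrder K' _ (o i).toLinearOrder (o i).ord x h3

end Pool.Agent.Results.MP_3554b5_lc.LocalPlaces
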