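import Pool.Agent.R492.DV.Kueker
import Pool.Agent.R492.DW.W3

/-!
# Valuations with a least positive value on NIP fields are definable

Let `K` be a field (a pure field, in the language of rings) which is NIP, or `NIP_n` for some `n`, or
NTP2. Then every valuation ring `O` of `K` whose maximal ideal is principal (that is, whose value
group has a least positive element, if `O` is not `K`) and whose residue field is not separably
closed is definable with parameters in the language of rings. It is not assumed that `O` is
henselian, and there is no condition on the value group besides the existence of a least positive
element. In particular all discrete valuation rings of `K` with residue field not separably closed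
are definable, and the valued field `(K, O)` is NIP (or `NIP_n`, or NTP2) again.

Proof. Let `t` generate the maximal ideal of `O`, and let `d` be the degree of a separable extension of
the residue field. Let `K'` be elementarily equivalent to `K` and let `O'` be a valuation ring of `K'`
with the same first-order properties as `O`, with maximal ideal `(t')`. The field `O' [1 / t'] / M`
has a valuation with value group the integers, and the residue field of `O'` has a separable
extension of degree `d`. Hence this place is not tame at `d`, and by the starting result
`UnramifiedNorms` there are fewer than `N` pairwise incomparable such places. Two valuation rings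
with the same generator `t'` of the maximal ideal are equal or incomparable. So there are fewer than
`N` such expansions of `(K', t')`, and by Kueker's theorem (for the language with a constant for
`t`) the ring `O` is definable with parameters. Kueker's theorem is proved with Robinson's joint
consistency argument in `Pool/Agent/R492/DV`, the version with constants in `Pool/Agent/R492/DW`.

The pieces were formalised by helper372 (joint consistency), helper733 (Kueker's theorem),
helper938 (first-order transfer), helper520 (residue fields), helper455, helper657 (places) and
helper492.
-/

set_option autoImplicit false

namespace Pool.Agent.Results.MP_3554b5_lc.DefinableValuations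

open Pool.Agent.W882.Nip3 Pool.Agent.R492.DV Pool.Agent.R492.DW

/-- Let `K` be a field which is NIP (the hypothesis of `S14569`), or `NIP_n` for some `n`, or
`NTP2`.

(1) Every valuation ring of `K` with principal maximal ideal and residue field not separably closed
is definable with parameters in the language of rings.

(2) For every `d ≥ 2` there is an `N` such that for every field `K'` elementarily equivalent to `K`
and every `t ≠ 0` in `K'` there are fewer than `N` valuation rings of `K'` with maximal ideal `(t)`
whose residue field has a separable extension of degree `d`. -/
theorem result (K : Type) [Field K] [FirstOrder.Ring.CompatibleRing K]
    (hK : NIPField K ∨ (∃ n, NIPnField n K) ∨ NTP2Field K) :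
    (∀ O : ValuationSubring K, (IsLocalRing.maximalIdeal O).IsPrincipal →
      ¬ IsSepClosed (IsLocalRing.ResidueField O) →
      ∃ (p : ℕ) (ψ : FirstOrder.Language.ring.Formula (Fin 1 ⊕ Fin p)) (c : Fin p → K),
        ∀ x : K, x ∈ O ↔ ψ.Realize (Sum.elim (fun _ => x) c)) ∧
    ∀ d : ℕ, 2 ≤ d → ∃ N : ℕ, ∀ (K' : Type) [Field K'] [FirstOrder.Ring.CompatibleRing K'],
      FirstOrder.Language.ring.ElementarilyEquivalent K K' → ∀ t : K', t ≠ 0 →
      {O : ValuationSubring K' | (∃ h : t ∈ O, IsLocalRing.maximalIdeal O = Ideal.span {⟨t, h⟩}) ∧
        HasExt d O}.encard < N :=
  main3 kueker K hK

end Pool.Agent.Results.MP_3554b5_lc.DefinableValuations
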