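import Pool.Agent.R614.NF.Emb
import Pool.Agent.R614.GE.Many

/-!
# Galois extensions of number fields which are NIP, `NIP_n` or NTP2

Let `κ` be a finite or infinite Galois extension of a number field `F`, and suppose that `κ` is NIP,
or `NIP_n` for some `n`, or NTP2, or only that `κ` is a residue field of a field elementarily
equivalent to a field with one of these properties. We show that then the degree of `κ` over `F` and
all its local degrees are divisible by `ℓ ^ ∞` for every prime number `ℓ`: for every nontrivial
valuation of `κ` and every `ℓ` the value group is `ℓ`-divisible or the residue field has no separable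
extension of degree `ℓ`, and `κ` is not formally real. (Question 1 predicts that `κ` is algebraically
closed.) For example no infinite Galois extension of a number field is NIP or NTP2 which, for some
prime ideal and some `ℓ`, has a local degree not divisible by `ℓ ^ ∞`.

The starting result `UnramifiedNorms` says that a field with these properties has few pairwise
incomparable valuations which are not tame. If a valuation which is not tame at `ℓ` has infinitely
many conjugates under the Galois group, this is a contradiction. If it has finitely many, then, since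
the products `e f g` are the degrees of the finite subextensions, the `ℓ`-parts of these degrees are
bounded. But then no nontrivial valuation of `κ` is tame at `ℓ`, a contradiction again.

`NIPField`, `NIPnField`, `NTP2Field` are defined in `Pool.Agent.W882.Nip3.Defs`.
-/

set_option autoImplicit false

namespace Pool.Agent.Results.MP_3554b5_lc.GaloisExtensions

open Pool.Agent.W882.Nip3 Pool.Agent.R614.NF Pool.Agent.R614.GE NNReal NumberField
open Pool.Agent.Results.MP_3554b5_lc.UnramifiedNorms

/-- Let `K` be a field which is NIP (the hypothesis of `S14569`), or `NIP_n` for some `n`, or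
`NTP2`. Let `K'` be a field elementarily equivalent to `K` (for example `K' = K`), `O` a valuation
ring of `K'` (for example `O = K'`), `κ` its residue field, and suppose that `κ` is a (finite or
infinite) Galois extension of a number field `F`. Then:

(1) for every prime number `ℓ` and every `M` there is a finite Galois extension `L` of `F` in `κ`
whose degree is divisible by `ℓ ^ M`; in particular `κ` is an infinite extension of `F`;

(2) `κ` has no embedding in the field of real numbers;

(3) for every nontrivial valuation `v` of `κ` with real values and every prime number `ℓ` the value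
group of `v` is `ℓ`-divisible or the residue field of `v` has no separable extension of degree `ℓ`;

(4) for every nontrivial valuation `v` of `κ` with real values, every prime number `ℓ` and every `M`
there is a finite Galois extension `L` of `F` in `κ` such that the product `e f` of the ramification
index and the inertia degree of the prime ideal of `L` which consists of the integers of value less
than one is divisible by `ℓ ^ M`. -/
theorem result (K : Type) [Field K] [FirstOrder.Ring.CompatibleRing K]
    (hK : NIPField K ∨ (∃ n, NIPnField n K) ∨ NTP2Field K)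
    (K' : Type) [Field K'] [FirstOrder.Ring.CompatibleRing K']
    (hKK' : FirstOrder.Language.ring.ElementarilyEquivalent K K')
    (O : ValuationSubring K') (κ : Type) [Field κ] (π : O →+* κ) (hπ : Function.Surjective π)
    (F : Type) [Field F] [NumberField F] [Algebra F κ] [IsGalois F κ] :
    (∀ ℓ M : ℕ, ℓ.Prime → ∃ L : FiniteGaloisIntermediateField F κ,
      ℓ ^ M ∣ Module.finrank F L) ∧
    IsEmpty (κ →+* ℝ) ∧
    (∀ v : Valuation κ ℝ≥0, (∃ a, 1 < v a) → ∀ ℓ : ℕ, ℓ.Prime →
      (∀ a : κ, ∃ c : κ, v a = v c ^ ℓ) ∨
      ¬ ∃ (L : Type) (_ : Field L) (_ : Algebra (IsLocalRing.ResidueField v.valuationSubring) L),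
        Algebra.IsSeparable (IsLocalRing.ResidueField v.valuationSubring) L ∧
        Module.finrank (IsLocalRing.ResidueField v.valuationSubring) L = ℓ) ∧
    (∀ v : Valuation κ ℝ≥0, (∃ a, 1 < v a) → ∀ ℓ M : ℕ, ℓ.Prime →
      ∃ L : FiniteGaloisIntermediateField F κ,
        ℓ ^ M ∣ (center v L).ramificationIdx (𝓞 F) * (center v L).inertiaDeg (𝓞 F)) := by
  -- there are not arbitrarily many bad valuations
  have key : ∀ ℓ : ℕ, ℓ.Prime → ¬ ∀ N : ℕ, ∃ w : Fin N → Valuation κ ℝ≥0,
      (Pairwise fun i j => ∃ z, w i z < 1 ∧ 1 < w j z) ∧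
        ∀ i, ¬ Div (w i) ℓ ∧ HasExt (w i) ℓ := by
    intro ℓ hℓ h
    obtain ⟨N, hN⟩ := (UnramifiedNorms.result K hK).1 ℓ
    obtain ⟨w, hw1, hw2⟩ := h N
    let P : Fin N → ValuedPlace K' := fun i => ⟨O, κ, inferInstance, π, hπ, w i⟩
    obtain ⟨i, hi⟩ := (hN K' hKK').1 P (by
      intro i j hij
      obtain ⟨z, hz1, hz2⟩ := hw1 hij
      obtain ⟨x, hx⟩ := hπ z
      have hz0 : z ≠ 0 := by
        rintro rfl
        rw [map_zero] at hz2
        exact absurd hz2 (not_lt.2 zero_le_one)
      have hu : IsUnit x := isUnit_of_ne O π hπ x (by rw [hx]; exact hz0)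
      obtain ⟨u, rfl⟩ := hu
      have hux : ((u : O) : K') ≠ 0 := fun h0 => u.ne_zero (Subtype.ext h0)
      have hinv : ((u⁻¹ : Oˣ) : O).1 = ((u : O) : K')⁻¹ := by
        apply eq_inv_of_mul_eq_one_left
        have h1 := congrArg Subtype.val (Units.inv_mul u)
        exact h1
      refine ⟨((u : O) : K'), hux, ⟨(u : O).2, ?_⟩, ?_⟩
      · show w i (π ⟨((u : O) : K'), _⟩) < 1
        have h2 : (⟨((u : O) : K'), (u : O).2⟩ : O) = u := rfl
        rw [h2, hx]
        exact hz1
      · rw [← hinv]
        refine ⟨((u⁻¹ : Oˣ) : O).2, ?_⟩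
        show w j (π ⟨((u⁻¹ : Oˣ) : O).1, _⟩) < 1
        have h2 : (⟨((u⁻¹ : Oˣ) : O).1, ((u⁻¹ : Oˣ) : O).2⟩ : O) = ((u⁻¹ : Oˣ) : O) := rfl
        have h3 : π ((u⁻¹ : Oˣ) : O) = z⁻¹ := by
          apply eq_inv_of_mul_eq_one_left
          rw [← hx, ← map_mul, Units.inv_mul, map_one]
        rw [h2, h3, map_inv₀]
        exact inv_lt_one_of_one_lt₀ hz2)
    rcases (hi ℓ hℓ.one_le le_rfl).1 with h1 | h1
    · exact (hw2 i).1 h1
    · exact h1 (hw2 i).2
  have part1 : ∀ ℓ M : ℕ, ℓ.Prime → ∃ L : FiniteGaloisIntermediateField F κ,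
      ℓ ^ M ∣ Module.finrank F L := by
    intro ℓ M hℓ
    by_contra hcon
    push Not at hcon
    exact key ℓ hℓ fun N => many_of_bounded F hℓ hcon N
  have part3 : ∀ v : Valuation κ ℝ≥0, (∃ a, 1 < v a) → ∀ ℓ : ℕ, ℓ.Prime →
      Div v ℓ ∨ ¬ HasExt v ℓ := by
    intro v hv ℓ hℓ
    by_contra hcon
    push Not at hcon
    exact key ℓ hℓ fun N => many F hv hℓ hcon.1 hcon.2 N
  refine ⟨part1, ⟨fun e => ?_⟩, part3, fun v hv ℓ M hℓ => ?_⟩
  · -- infinitely many real places
    have hinf : Infinite (κ ≃ₐ[F] κ) := by
      rw [← not_finite_iff_infinite]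
      intro hfin
      obtain ⟨L, hL⟩ := part1 2 (Nat.card (κ ≃ₐ[F] κ)) Nat.prime_two
      have h1 : Nat.card (L ≃ₐ[F] L) ≤ Nat.card (κ ≃ₐ[F] κ) :=
        Nat.card_le_card_of_surjective _ (AlgEquiv.restrictNormalHom_surjective (F := F) (K₁ := L) κ)
      rw [IsGalois.card_aut_eq_finrank] at h1
      have h2 := Nat.le_of_dvd Module.finrank_pos hL
      have h3 := Nat.lt_two_pow_self (n := Nat.card (κ ≃ₐ[F] κ))
      omega
    obtain ⟨N, hN⟩ := few_local K hK
    let s : ℕ ↪ (κ ≃ₐ[F] κ) := Infinite.natEmbedding _
    let P : Fin N → LocalPlace K' := fun i =>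
      .real ⟨O, κ, inferInstance, π, hπ, e.comp ((s i : κ ≃ₐ[F] κ) : κ →+* κ)⟩
    obtain ⟨i, j, hij, h⟩ := hN K' hKK' P
    have h1 : ∀ z : κ, |e (s i z)| ≤ 1 → |e (s j z)| ≤ 1 := by
      intro z hz
      obtain ⟨x, hx⟩ := hπ z
      have h2 : x.1 ∈ (P i).ball := by
        refine ⟨x.2, ?_⟩
        show |e (s i (π x))| ≤ 1
        rw [hx]
        exact hz
      rw [h] at h2
      obtain ⟨h3, h4⟩ := h2
      have h5 : |e (s j (π x))| ≤ 1 := h4
      rwa [hx] at h5
    have h2 : e.comp ((s i : κ ≃ₐ[F] κ) : κ →+* κ) = e.comp ((s j : κ ≃ₐ[F] κ) : κ →+* κ) :=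
      real_eq_of_ball h1
    have h3 : s i = s j := by
      ext z
      exact e.injective (RingHom.congr_fun h2 z)
    exact hij (Fin.ext (s.injective h3))
  · rcases part3 v hv ℓ hℓ with h | h
    · by_contra hcon
      push Not at hcon
      exact not_div_of_bounded (F := F) v hv hℓ (M := M)
        (fun L hL => hcon L (hL.mul_right _)) h
    · by_contra hcon
      push Not at hcon
      exact h (exists_ext_of_bounded (F := F) v hv hℓ (M := M)
        (fun L hL => hcon L (hL.mul_left _)))

end Pool.Agent.Results.MP_3554b5_lc.GaloisExtensions
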