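import Pool.Agent.R614.PT.Core

/-!
# Transcendence bases of fields which are NIP, `NIP_n` or NTP2

Let `κ` be a field of characteristic zero which is NIP, or `NIP_n` for some `n`, or NTP2, or only a
residue field of a field elementarily equivalent to a field with one of these properties. We show
that for every transcendence basis `x` of `κ` over the field of rational numbers and every prime
number `ℓ` the degree of the algebraic extension `κ / ℚ(x)` is divisible by `ℓ ^ ∞`: every power of
`ℓ` divides the degree of some finite subextension. For example this holds for every algebraic
extension of a number field (then `x` is empty). More generally we consider transcendence bases over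
arbitrary subfields; the result applies in all characteristics, for instance over finite fields.

The main point is that every real valuation of a field `k` which is not tame at `ℓ` has an extension
to every algebraic extension of degree prime to `ℓ` which is not tame at `ℓ` (`extend` in
`Pool.Agent.R614.PT.Ext`). We embed the extension in a maximal extension of degree prime to `ℓ` of
the completion of `k`, and compare the degrees of elements and of their residues. Since finite
extensions of `ℚ(x)` have infinitely many valuations which are not tame at `ℓ`, the theorem follows
from the starting result `UnramifiedNorms`. The starting result `FunctionFields` is about finitely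
generated extensions.

`NIPField`, `NIPnField`, `NTP2Field` are defined in `Pool.Agent.W882.Nip3.Defs`, the other
definitions are in `Pool.Agent.R614.PT.Defs`.
-/

set_option autoImplicit false

namespace Pool.Agent.Results.MP_3554b5_lc.TranscendenceBases

open Pool.Agent.W882.Nip3 Pool.Agent.R614.PT

/-- Let `K` be a field which is NIP (the hypothesis of `S14569`), or `NIP_n` for some `n`, or
`NTP2`. Let `κ` be the residue field of a valuation ring `O` of a field `K'` which is elementarily
equivalent to `K` (for example `κ = O = K' = K`), and let `ℓ` be a prime number.

(1) If `κ` has characteristic zero and `x` is a (possibly empty) transcendence basis of `κ` over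
the field of rational numbers, then for every `M` there is a finite subextension of `κ / ℚ(x)` whose
degree is divisible by `ℓ ^ M`.

(2) Let `k₀` be a field and `x` a nonempty transcendence basis of `κ` over `k₀` such that the
powers of `ℓ` which divide the degrees of the finite subextensions of `κ / k₀(x)` are bounded. Then
`x` has only one element and some finite extension of `k₀` has no separable extension of
degree `ℓ`. -/
theorem result (K : Type) [Field K] [FirstOrder.Ring.CompatibleRing K]
    (hK : NIPField K ∨ (∃ n, NIPnField n K) ∨ NTP2Field K) (κ : Type) [Field κ]
    (hκ : IsResidue K κ) (ℓ : ℕ) (hℓ : ℓ.Prime) :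
    (∀ [CharZero κ] (ι : Type) (x : ι → κ), IsTranscendenceBasis ℚ x →
      ∀ M : ℕ, ∃ L : IntermediateField (IntermediateField.adjoin ℚ (Set.range x)) κ,
        FiniteDimensional (IntermediateField.adjoin ℚ (Set.range x)) L ∧
          ℓ ^ M ∣ Module.finrank (IntermediateField.adjoin ℚ (Set.range x)) L) ∧
    ∀ (k₀ : Type) [Field k₀] [Algebra k₀ κ] (ι : Type) [Nonempty ι] (x : ι → κ),
      IsTranscendenceBasis k₀ x →
      BoundedPart ℓ (IntermediateField.adjoin k₀ (Set.range x)) κ →
        Subsingleton ι ∧ ¬ SepExtAll k₀ ℓ := by
  obtain ⟨N, hN⟩ := few_residue K hK hℓ
  refine ⟨?_, ?_⟩
  · intro _ ι x hx M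
    by_contra hcon
    push Not at hcon
    exact trans_zero hx hℓ (hN κ hκ) hcon
  · intro k₀ _ _ ι _ x hx hM
    obtain ⟨M, hM⟩ := hM
    exact trans_basis hx hℓ (hN κ hκ) hM

end Pool.Agent.Results.MP_3554b5_lc.TranscendenceBases
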